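import Pool.Agent.Helper38.IA.StN

set_option autoImplicit false

namespace Pool.Agent.Helper66.IA38

open Finset Filter Pool.Agent.Helper93.IA Pool.Agent.Helper17.IAN Pool.Agent.Helper38.IA

theorem hNN0 : StNN0 := by
  intro c hc
  have h1 : Tendsto (fun n : ℕ => c * (n : ℝ)) atTop atTop :=
    Tendsto.const_mul_atTop hc tendsto_natCast_atTop_atTop
  have h2 := (Real.tendsto_pow_mul_exp_neg_atTop_nhds_zero 2).comp h1
  have h3 : ∀ᶠ n : ℕ in atTop, (c * (n : ℝ)) ^ 2 * Real.exp (-(c * n)) < c ^ 2 / 18 :=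
    h2.eventually_lt_const (by positivity)
  obtain ⟨n0, hn0⟩ := eventually_atTop.1 h3
  refine ⟨n0 + 1, fun n hn => ⟨by omega, ?_⟩⟩
  have h4 := hn0 n (by omega)
  have hc2 : 0 < c ^ 2 := by positivity
  have h5 : c ^ 2 * ((n : ℝ) ^ 2 * Real.exp (-(c * n))) < c ^ 2 * (1 / 18) := by
    calc c ^ 2 * ((n : ℝ) ^ 2 * Real.exp (-(c * n)))
        = (c * (n : ℝ)) ^ 2 * Real.exp (-(c * n)) := by ring
      _ < c ^ 2 / 18 := h4
      _ = c ^ 2 * (1 / 18) := by ring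
  have h6 := lt_of_mul_lt_mul_left h5 hc2.le
  linarith

end Pool.Agent.Helper66.IA38
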